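import Pool.Agent.KS6_51.INVS.Sq

set_option autoImplicit false

/-!
# Squares of all coordinates of the points of invariant sets modulo `p`, far from all primes

Let `a(n)` be the distance from `n²` to the next prime, and `R(x) = log x (log₂ x)² log₄ x / (log₃ x)²` the size of
the longest known gaps between primes.  Let `Ω` be an ARBITRARY set of vectors modulo the prime `p` with `r`
coordinates, which is mapped onto itself by some affine maps such that every nonzero linear functional has at least `T`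
images under (products of) their linear parts.  If `(∏ N_j)² |Ω| T ≥ p^(3r + ε)`, then for at least
`(∏ N_j) |Ω| p^(-r - ε)` vectors in `Ω` the least residues `n_j` of all `r` coordinates are in given intervals
`[A_j, A_j + N_j)` of `[0, p)`, and no prime is within `D` of any of the squares `(n_j + h)²`, `h ∈ K`,
`|n_j + h| > p^ε`.  Here `(D, K)` is any pair with

* `|h| ≤ (log p)^b` for `h ∈ K` and `D |K| ≤ κ log p log log p`, or
* `K = {0, ..., H - 1}`, `H² ≤ κ log p`, and `D ≤ κ log p` or `D H ≤ κ R(p)`.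

In particular (`K = {0}`) `a(n_j) > κ R(p)` for all `j` with `n_j > p^ε`.  Three cases: affine groups in the form above;
sets of elements of the field with `p^r` elements closed under the multiplication with a subgroup `U` of its
multiplicative group, coordinates with respect to any basis, `T = |U|`; sets of arrays (matrices, tensors) of the
format `n_1 × ... × n_d` closed under the addition of multiples of slices to slices in the directions of a set `D`,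
`T = p^(1 + ∑_{j ∈ D} (n_j - 1))`.

Proof (`Pool.Agent.KS6_51.INV`, `INVC`, `INVS`).  The modulus of the Fourier transform of `Ω` is constant on the orbits
of the functionals, and Parseval's identity bounds it.  The rest is the covering sieve for the polynomials
`(X + h)² + a` of the starting library (`Pool.Agent.N542.PV.rect_vec`), brought to the form of a criterion for vectors
with small exponential sums (`csSq`).
-/

namespace Pool.Agent.Results.MP_36c81c_nt.SquaresAtInvariantSets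

open Finset Matrix Module Filter
open Pool.Agent.KS6_51.INVC hiding Count
open Pool.Agent.KS6_51.INVS
open Pool.Agent.W147.PS (ff)
open Pool.Agent.N542.PV (AdmSq AdmSq_mono iso_of_good ev_ff ev_adm)

/-- the record length `R(x) = log x (log₂ x) ^ 2 log₄ x / (log₃ x) ^ 2` -/
noncomputable def R (x : ℝ) : ℝ :=
  Real.log x * (Real.log (Real.log x)) ^ 2 * Real.log (Real.log (Real.log (Real.log x))) /
    (Real.log (Real.log (Real.log x))) ^ 2

/-- the admissible pairs: a distance `D` and a set of shifts `K` -/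
def Admissible (κ : ℝ) (b : ℕ) (Z : ℝ) (D : ℕ) (K : Finset ℤ) : Prop :=
  ((∀ h ∈ K, |(h : ℝ)| ≤ (Real.log Z) ^ b) ∧
    (D : ℝ) * K.card ≤ κ * Real.log Z * Real.log (Real.log Z)) ∨
  ∃ H : ℕ, K = Ico (0 : ℤ) H ∧ (H : ℝ) ^ 2 ≤ κ * Real.log Z ∧
    ((D : ℝ) ≤ κ * Real.log Z ∨ (D : ℝ) * H ≤ κ * R Z)

/-- no prime lies within `D` of the squares `(n + h) ^ 2`, `h ∈ K`, `|n + h| > z` -/
def FarSquares (D : ℕ) (K : Finset ℤ) (z : ℝ) (n : ℕ) : Prop :=
  ∀ h ∈ K, z < |(((n : ℤ) + h : ℤ) : ℝ)| → ∀ q : ℕ, q.Prime → (D : ℤ) < |(q : ℤ) - ((n : ℤ) + h) ^ 2|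

/-- the number of the `v` in `Ω` all of whose coordinates `c v j` have their least residue in `[A j, A j + N j)` and
with the property `P` -/
noncomputable def Count {V J : Type} {p : ℕ} (Ω : Finset V) (c : V → J → ZMod p) (A N : J → ℕ) (P : ℕ → Prop) : ℕ :=
  {v : V | v ∈ Ω ∧ ∀ j, (A j ≤ (c v j).val ∧ (c v j).val < A j + N j) ∧ P (c v j).val}.ncard

/-- the intervals `[A j, A j + N j)` are in `[0, p)` and have length at least `p ^ ε` -/
def Boxes {J : Type} (ε : ℝ) (p : ℕ) (A N : J → ℕ) : Prop := ∀ j, A j + N j ≤ p ∧ (p : ℝ) ^ ε ≤ N j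

/-- every set of row vectors which contains a nonzero vector and is closed under `h ↦ h M`, `(M, b) ∈ Γ`, has at least
`T` elements -/
def LargeOrbits {p r : ℕ} (Γ : Set (Matrix (Fin r) (Fin r) (ZMod p) × (Fin r → ZMod p))) (T : ℝ) : Prop :=
  ∀ H : Finset (Fin r → ZMod p), (∃ h ∈ H, h ≠ 0) → (∀ γ ∈ Γ, ∀ h ∈ H, h ᵥ* γ.1 ∈ H) → T ≤ H.card

/-- the array `X` with `s` times the slice `i j = b` added to the slice `i j = a` -/
def addSlice {p k : ℕ} {n : Fin k → ℕ} (j : Fin k) (a b : Fin (n j)) (s : ZMod p)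
    (X : (∀ j, Fin (n j)) → ZMod p) : (∀ j, Fin (n j)) → ZMod p :=
  fun i => if i j = a then X i + s * X (Function.update i j b) else X i

/-- what is needed of a large prime -/
lemma tools (b : ℕ) (κ cc ε : ℝ) (hcc : 0 < cc) (hε : 0 < ε) :
    ∃ p₁ : ℕ, ∀ p : ℕ, p₁ ≤ p → p.Prime →
      (∀ (D : ℕ) (K : Finset ℤ), Admissible (min κ 1) b p D K → ∀ x : ℕ, x < p →
        Qsq b (ε / 2) (D, K) κ p x → FarSquares D K ((p : ℝ) ^ ε) x) ∧
      ∀ (V : ℝ) (a : ℕ), 0 ≤ V → V * (p : ℝ) ^ (-(a : ℝ) - ε) ≤ cc * (V / (p : ℝ) ^ a) * (p : ℝ) ^ (-(ε / 2)) := by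
  have hT : Tendsto (fun p : ℕ => (p : ℝ)) atTop atTop := tendsto_natCast_atTop_atTop
  obtain ⟨p₁, h⟩ := ((hT.eventually ev_ff).and ((hT.eventually
    (ev_adm (min κ 1) b (min_le_right _ _) (ε / 2) (by positivity))).and
    (hT.eventually ((tendsto_rpow_atTop (show (0 : ℝ) < ε / 2 by positivity)).eventually_ge_atTop
      (1 / cc))))).exists_forall_of_atTop
  refine ⟨max p₁ 2, fun p hp hpp => ?_⟩
  obtain ⟨hff, hadm, hbig⟩ := h p ((le_max_left _ _).trans hp)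
  obtain ⟨hL, hl0, hlL, hR0, hR⟩ := hff
  have hp0 : (0 : ℝ) < p := by exact_mod_cast hpp.pos
  have hp1 : (1 : ℝ) ≤ p := by exact_mod_cast hpp.one_lt.le
  refine ⟨?_, ?_⟩
  · intro D K hDK x _ hQ k hk hbx q hq
    have hA1 : AdmSq (min κ 1) b (Real.log p) (Real.log (Real.log p)) (ff p) D K := hDK
    refine iso_of_good (hadm D K ⟨k, hk⟩ hA1) ?_ (fun a ha hsq => ?_) q hq
    · refine lt_of_le_of_lt ?_ hbx
      exact Real.rpow_le_rpow_of_exponent_le hp1 (by linarith)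
    · exact hQ (AdmSq_mono (min_le_left _ _) (by linarith) hl0 hR0 hA1) k hk a ha hsq
  · intro V a hV
    have e1 : (p : ℝ) ^ (-(a : ℝ) - ε) = ((p : ℝ) ^ a)⁻¹ * ((p : ℝ) ^ (-(ε / 2)) * (p : ℝ) ^ (-(ε / 2))) := by
      rw [← Real.rpow_natCast, ← Real.rpow_neg hp0.le, ← Real.rpow_add hp0, ← Real.rpow_add hp0]
      congr 1
      ring
    have e2 : (p : ℝ) ^ (-(ε / 2)) ≤ cc := by
      rw [Real.rpow_neg hp0.le]
      rw [div_le_iff₀ hcc] at hbig
      rw [inv_le_iff_one_le_mul₀ (by positivity)]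
      linarith
    rw [e1]
    calc V * (((p : ℝ) ^ a)⁻¹ * ((p : ℝ) ^ (-(ε / 2)) * (p : ℝ) ^ (-(ε / 2)))) =
        (V * ((p : ℝ) ^ a)⁻¹ * (p : ℝ) ^ (-(ε / 2))) * (p : ℝ) ^ (-(ε / 2)) := by ring
      _ ≤ (V * ((p : ℝ) ^ a)⁻¹ * (p : ℝ) ^ (-(ε / 2))) * cc :=
          mul_le_mul_of_nonneg_left e2 (by positivity)
      _ = _ := by rw [div_eq_mul_inv]; ring

/-- **Squares at invariant sets, far from all primes.**

1. Sets `Ω` of vectors modulo `p` which are mapped onto themselves by the affine maps `v ↦ M v + b`, `(M, b) ∈ Γ`.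

2. Sets `Ω` of elements of a field of degree `r` over the prime field, closed under the multiplication with the
elements of a subgroup `U` of the multiplicative group; coordinates with respect to a basis.

3. Sets `Ω` of arrays of the format `n 0 × ... × n (d - 1)`, closed under the addition of multiples of slices to other
slices in the directions of `E`. -/
theorem result (b : ℕ) :
    (∀ r : ℕ, ∀ ε : ℝ, 0 < ε → ε ≤ 1 → ∃ κ : ℝ, 0 < κ ∧ ∃ p₀ : ℕ, ∀ p : ℕ, p₀ ≤ p → ∀ [Fact p.Prime],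
      ∀ (D : ℕ) (K : Finset ℤ), Admissible κ b p D K →
      ∀ (Γ : Set (Matrix (Fin r) (Fin r) (ZMod p) × (Fin r → ZMod p))) (T : ℝ), LargeOrbits Γ T →
      ∀ Ω : Finset (Fin r → ZMod p), (∀ γ ∈ Γ, Set.BijOn (fun v => γ.1 *ᵥ v + γ.2) Ω Ω) →
      ∀ A N : Fin r → ℕ, Boxes ε p A N →
        (p : ℝ) ^ (3 * (r : ℝ) + ε) ≤ (∏ j, (N j : ℝ)) ^ 2 * Ω.card * T →
        (∏ j, (N j : ℝ)) * Ω.card * (p : ℝ) ^ (-(r : ℝ) - ε) ≤
          Count Ω (fun v => v) A N (FarSquares D K ((p : ℝ) ^ ε))) ∧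
    (∀ r : ℕ, ∀ ε : ℝ, 0 < ε → ε ≤ 1 → ∃ κ : ℝ, 0 < κ ∧ ∃ p₀ : ℕ, ∀ p : ℕ, p₀ ≤ p → ∀ [Fact p.Prime],
      ∀ (D : ℕ) (K : Finset ℤ), Admissible κ b p D K →
      ∀ (F : Type) [Field F] [Algebra (ZMod p) F] (B : Basis (Fin r) (ZMod p) F) (U : Subgroup Fˣ) (Ω : Finset F),
      (∀ u ∈ U, ∀ y ∈ Ω, (u : F) * y ∈ Ω) →
      ∀ A N : Fin r → ℕ, Boxes ε p A N →
        (p : ℝ) ^ (3 * (r : ℝ) + ε) ≤ (∏ j, (N j : ℝ)) ^ 2 * Ω.card * Nat.card U →
        (∏ j, (N j : ℝ)) * Ω.card * (p : ℝ) ^ (-(r : ℝ) - ε) ≤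
          Count Ω (fun y j => B.repr y j) A N (FarSquares D K ((p : ℝ) ^ ε))) ∧
    (∀ (d : ℕ) (n : Fin d → ℕ), (∀ j, 1 ≤ n j) → ∀ E : Finset (Fin d), (∃ j ∈ E, 2 ≤ n j) →
      ∀ ε : ℝ, 0 < ε → ε ≤ 1 → ∃ κ : ℝ, 0 < κ ∧ ∃ p₀ : ℕ, ∀ p : ℕ, p₀ ≤ p → ∀ [Fact p.Prime],
      ∀ (D : ℕ) (K : Finset ℤ), Admissible κ b p D K →
      ∀ Ω : Finset ((∀ j, Fin (n j)) → ZMod p),
      (∀ j ∈ E, ∀ a b : Fin (n j), a ≠ b → ∀ s : ZMod p, ∀ X ∈ Ω, addSlice j a b s X ∈ Ω) →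
      ∀ A N : (∀ j, Fin (n j)) → ℕ, Boxes ε p A N →
        (p : ℝ) ^ (3 * (∏ j, (n j : ℝ)) - ∑ j ∈ E, ((n j : ℝ) - 1) - 1 + ε) ≤ (∏ i, (N i : ℝ)) ^ 2 * Ω.card →
        (∏ i, (N i : ℝ)) * Ω.card * (p : ℝ) ^ (-(∏ j, (n j : ℝ)) - ε) ≤
          Count Ω (fun X => X) A N (FarSquares D K ((p : ℝ) ^ ε))) := by
  refine ⟨?_, ?_, ?_⟩
  · intro r ε h0 h1
    obtain ⟨κ, hκ, cc, hcc, p₀, h⟩ := famA (Qsq b (ε / 2)) (fun _ M => M ^ (-(ε / 2)))
      (fun r => csSq b (ε / 2) (by positivity) r) r ε h0 h1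
    obtain ⟨p₁, ht⟩ := tools b κ cc ε hcc h0
    refine ⟨min κ 1, lt_min hκ one_pos, max p₀ p₁, ?_⟩
    intro p hp hpF D K hDK Γ T hT Ω hΩ A N hAN hW
    obtain ⟨t1, t2⟩ := ht p ((le_max_right _ _).trans hp) hpF.out
    exact (t2 _ r (by positivity)).trans (h p ((le_max_left _ _).trans hp) (D, K) _ (t1 D K hDK) Γ T hT Ω hΩ A N hAN hW)
  · intro r ε h0 h1
    obtain ⟨κ, hκ, cc, hcc, p₀, h⟩ := famF (Qsq b (ε / 2)) (fun _ M => M ^ (-(ε / 2)))
      (fun r => csSq b (ε / 2) (by positivity) r) r ε h0 h1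
    obtain ⟨p₁, ht⟩ := tools b κ cc ε hcc h0
    refine ⟨min κ 1, lt_min hκ one_pos, max p₀ p₁, ?_⟩
    intro p hp hpF D K hDK F _ _ B U Ω hΩ A N hAN hW
    obtain ⟨t1, t2⟩ := ht p ((le_max_right _ _).trans hp) hpF.out
    exact (t2 _ r (by positivity)).trans (h p ((le_max_left _ _).trans hp) (D, K) _ (t1 D K hDK) F B U Ω hΩ A N hAN hW)
  · intro d n hn E hE ε h0 h1
    obtain ⟨κ, hκ, cc, hcc, p₀, h⟩ := famT (Qsq b (ε / 2)) (fun _ M => M ^ (-(ε / 2)))
      (fun r => csSq b (ε / 2) (by positivity) r) d n hn E hE ε h0 h1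
    obtain ⟨p₁, ht⟩ := tools b κ cc ε hcc h0
    refine ⟨min κ 1, lt_min hκ one_pos, max p₀ p₁, ?_⟩
    intro p hp hpF D K hDK Ω hΩ A N hAN hW
    obtain ⟨t1, t2⟩ := ht p ((le_max_right _ _).trans hp) hpF.out
    have t3 := t2 ((∏ i, (N i : ℝ)) * Ω.card) (∏ j, n j) (by positivity)
    push_cast at t3
    exact t3.trans (h p ((le_max_left _ _).trans hp) (D, K) _ (t1 D K hDK) Ω hΩ A N hAN hW)

end Pool.Agent.Results.MP_36c81c_nt.SquaresAtInvariantSets
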