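import Pool.Agent.KS6_51.INVS.Sq
import Pool.Agent.KS6_52.SQ.Crit

set_option autoImplicit false

/-!
# Squares far from all primes: a residue and its inverse, orbits in `SL₂`, consecutive Fibonacci numbers modulo `p`

Let `a(n)` be the distance from `n²` to the next prime, and `R(x) = log x (log₂ x)² log₄ x / (log₃ x)²` the size of
the longest known gaps between primes.  The pairs of coordinates `n_0`, `n_1` below are in given intervals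
`[A_j, A_j + N_j)` of `[0, p)`, `p` a large prime, and no prime is within `D` of any of the squares `(n_j + h)²`,
`h ∈ K`, `|n_j + h| > p^ε`, for any admissible pair `(D, K)`:

* `|h| ≤ (log p)^b` for `h ∈ K` and `D |K| ≤ κ log p log log p`, or
* `K = {0, ..., H - 1}`, `H² ≤ κ log p`, and `D ≤ κ log p` or `D H ≤ κ R(p)`

(in particular, `K = {0}`, `a(n_j) > κ R(p)` for both coordinates), for at least `N_0 N_1 t p^(-2 - ε)` of

1. the points `x_k`, `k < t`, of the orbit `x_(k+1) = M x_k` of a matrix `M` of determinant one and order `t` modulo `p`;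
2. the pairs `(a u, b / u)`, `u` in a subgroup of order `t` of the multiplicative group modulo `p`;
3. the pairs `(F_n, F_(n+1))` of consecutive Fibonacci numbers modulo `p`, `t` their period,

as soon as `(N_0 N_1)⁴ t³ ≥ p^(10 + ε)`; for whole intervals this is `t ≥ p^(2/3 + ε')`.  These follow from a general
theorem: if `Ω` is mapped onto itself by affine maps such that every nonzero functional has at least `T` images under
products of the linear parts, and `E` is the additive energy of `Ω`, the condition is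
`(∏ N_j)⁴ |Ω|⁴ T ≥ p^(5 r + ε) E`.

Proof (`Pool.Agent.KS6_52.RG`, `Pool.Agent.KS6_52.SQ`): the orbits lie on nondegenerate conics and have energy at most
`3 t²`; the modulus of the Fourier transform is constant on the orbits of the functionals, and the fourth moment bounds
it.  The rest is the covering sieve for the polynomials `(X + h)² + a` of the starting library
(`Pool.Agent.N542.PV.rect_vec`) in the form of the criterion `Pool.Agent.KS6_51.INVS.csSq`.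
-/

namespace Pool.Agent.Results.MP_36c81c_nt.SquaresAtInverses

open Finset Matrix Filter
open Pool.Agent.KS6_51.INVS
open Pool.Agent.W147.PS (ff)
open Pool.Agent.N542.PV (AdmSq AdmSq_mono iso_of_good ev_ff ev_adm)

/-- the record length `R(x) = log x (log₂ x) ^ 2 log₄ x / (log₃ x) ^ 2` -/
noncomputable def R (x : ℝ) : ℝ :=
  Real.log x * (Real.log (Real.log x)) ^ 2 * Real.log (Real.log (Real.log (Real.log x))) /
    (Real.log (Real.log (Real.log x))) ^ 2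

/-- the admissible pairs: a distance `D` and a set of shifts `K` -/
def Admissible (κ : ℝ) (b : ℕ) (Z : ℝ) (D : ℕ) (K : Finset ℤ) : Prop :=
  ((∀ h ∈ K, |(h : ℝ)| ≤ (Real.log Z) ^ b) ∧
    (D : ℝ) * K.card ≤ κ * Real.log Z * Real.log (Real.log Z)) ∨
  ∃ H : ℕ, K = Ico (0 : ℤ) H ∧ (H : ℝ) ^ 2 ≤ κ * Real.log Z ∧
    ((D : ℝ) ≤ κ * Real.log Z ∨ (D : ℝ) * H ≤ κ * R Z)

/-- no prime lies within `D` of the squares `(n + h) ^ 2`, `h ∈ K`, `|n + h| > z` -/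
def FarSquares (D : ℕ) (K : Finset ℤ) (z : ℝ) (n : ℕ) : Prop :=
  ∀ h ∈ K, z < |(((n : ℤ) + h : ℤ) : ℝ)| → ∀ q : ℕ, q.Prime → (D : ℤ) < |(q : ℤ) - ((n : ℤ) + h) ^ 2|

/-- the intervals `[A j, A j + N j)` are in `[0, p)` and have length at least `p ^ ε` -/
def Boxes {r : ℕ} (ε : ℝ) (p : ℕ) (A N : Fin r → ℕ) : Prop := ∀ j, A j + N j ≤ p ∧ (p : ℝ) ^ ε ≤ N j

/-- `n` is in the `j`-th interval, and no prime lies within `D` of the squares `(n + h) ^ 2`, `h ∈ K`, `|n + h| > z` -/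
def Hit {r : ℕ} (D : ℕ) (K : Finset ℤ) (z : ℝ) (A N : Fin r → ℕ) (j : Fin r) (n : ℕ) : Prop :=
  (A j ≤ n ∧ n < A j + N j) ∧ FarSquares D K z n

/-- every set of row vectors which contains a nonzero vector and is closed under `h ↦ h M`, `(M, b) ∈ Γ`, has at least
`T` elements -/
def LargeOrbits {p r : ℕ} (Γ : Set (Matrix (Fin r) (Fin r) (ZMod p) × (Fin r → ZMod p))) (T : ℝ) : Prop :=
  ∀ H : Finset (Fin r → ZMod p), (∃ h ∈ H, h ≠ 0) → (∀ γ ∈ Γ, ∀ h ∈ H, h ᵥ* γ.1 ∈ H) → T ≤ H.card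

/-- the additive energy: the number of `(u, v, w, z)` in `Ω⁴` with `u + v = w + z` -/
def energy {p r : ℕ} (Ω : Finset (Fin r → ZMod p)) : ℕ :=
  (((Ω ×ˢ Ω) ×ˢ (Ω ×ˢ Ω)).filter fun q => q.1.1 + q.1.2 = q.2.1 + q.2.2).card

/-- what is needed of a large prime -/
lemma tools (b : ℕ) (κ cc ε : ℝ) (hcc : 0 < cc) (hε : 0 < ε) :
    ∃ p₁ : ℕ, ∀ p : ℕ, p₁ ≤ p → p.Prime →
      (∀ (D : ℕ) (K : Finset ℤ), Admissible (min κ 1) b p D K → ∀ x : ℕ, x < p →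
        Qsq b (ε / 2) (D, K) κ p x → FarSquares D K ((p : ℝ) ^ ε) x) ∧
      ∀ (V : ℝ) (a : ℕ), 0 ≤ V → V * (p : ℝ) ^ (-(a : ℝ) - ε) ≤ cc * (V / (p : ℝ) ^ a) * (p : ℝ) ^ (-(ε / 2)) := by
  have hT : Tendsto (fun p : ℕ => (p : ℝ)) atTop atTop := tendsto_natCast_atTop_atTop
  obtain ⟨p₁, h⟩ := ((hT.eventually ev_ff).and ((hT.eventually
    (ev_adm (min κ 1) b (min_le_right _ _) (ε / 2) (by positivity))).and
    (hT.eventually ((tendsto_rpow_atTop (show (0 : ℝ) < ε / 2 by positivity)).eventually_ge_atTop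
      (1 / cc))))).exists_forall_of_atTop
  refine ⟨max p₁ 2, fun p hp hpp => ?_⟩
  obtain ⟨hff, hadm, hbig⟩ := h p ((le_max_left _ _).trans hp)
  obtain ⟨hL, hl0, hlL, hR0, hR⟩ := hff
  have hp0 : (0 : ℝ) < p := by exact_mod_cast hpp.pos
  have hp1 : (1 : ℝ) ≤ p := by exact_mod_cast hpp.one_lt.le
  refine ⟨?_, ?_⟩
  · intro D K hDK x _ hQ k hk hbx q hq
    have hA1 : AdmSq (min κ 1) b (Real.log p) (Real.log (Real.log p)) (ff p) D K := hDK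
    refine iso_of_good (hadm D K ⟨k, hk⟩ hA1) ?_ (fun a ha hsq => ?_) q hq
    · refine lt_of_le_of_lt ?_ hbx
      exact Real.rpow_le_rpow_of_exponent_le hp1 (by linarith)
    · exact hQ (AdmSq_mono (min_le_left _ _) (by linarith) hl0 hR0 hA1) k hk a ha hsq
  · intro V a hV
    have e1 : (p : ℝ) ^ (-(a : ℝ) - ε) = ((p : ℝ) ^ a)⁻¹ * ((p : ℝ) ^ (-(ε / 2)) * (p : ℝ) ^ (-(ε / 2))) := by
      rw [← Real.rpow_natCast, ← Real.rpow_neg hp0.le, ← Real.rpow_add hp0, ← Real.rpow_add hp0]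
      congr 1
      ring
    have e2 : (p : ℝ) ^ (-(ε / 2)) ≤ cc := by
      rw [Real.rpow_neg hp0.le]
      rw [div_le_iff₀ hcc] at hbig
      rw [inv_le_iff_one_le_mul₀ (by positivity)]
      linarith
    rw [e1]
    calc V * (((p : ℝ) ^ a)⁻¹ * ((p : ℝ) ^ (-(ε / 2)) * (p : ℝ) ^ (-(ε / 2)))) =
        (V * ((p : ℝ) ^ a)⁻¹ * (p : ℝ) ^ (-(ε / 2))) * (p : ℝ) ^ (-(ε / 2)) := by ring
      _ ≤ (V * ((p : ℝ) ^ a)⁻¹ * (p : ℝ) ^ (-(ε / 2))) * cc :=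
          mul_le_mul_of_nonneg_left e2 (by positivity)
      _ = _ := by rw [div_eq_mul_inv]; ring

/-- **Squares at inverses, orbits of matrices of determinant one and Fibonacci numbers, far from all primes.** -/
theorem result (b : ℕ) :
    (∀ r : ℕ, ∀ ε : ℝ, 0 < ε → ε ≤ 1 → ∃ κ : ℝ, 0 < κ ∧ ∃ p₀ : ℕ, ∀ p : ℕ, p₀ ≤ p → ∀ [Fact p.Prime],
      ∀ (D : ℕ) (K : Finset ℤ), Admissible κ b p D K →
      ∀ (Γ : Set (Matrix (Fin r) (Fin r) (ZMod p) × (Fin r → ZMod p))) (T : ℝ), LargeOrbits Γ T →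
      ∀ Ω : Finset (Fin r → ZMod p), (∀ γ ∈ Γ, Set.BijOn (fun v => γ.1 *ᵥ v + γ.2) Ω Ω) →
      ∀ A N : Fin r → ℕ, Boxes ε p A N →
        (p : ℝ) ^ (5 * (r : ℝ) + ε) * energy Ω ≤ ((∏ j, (N j : ℝ)) * Ω.card) ^ 4 * T →
        ∃ G : Finset (Fin r → ZMod p), (∏ j, (N j : ℝ)) * Ω.card * (p : ℝ) ^ (-(r : ℝ) - ε) ≤ G.card ∧
          ∀ v ∈ G, v ∈ Ω ∧ ∀ j, Hit D K ((p : ℝ) ^ ε) A N j (v j).val) ∧
    (∀ ε : ℝ, 0 < ε → ε ≤ 1 → ∃ κ : ℝ, 0 < κ ∧ ∃ p₀ : ℕ, ∀ p : ℕ, p₀ ≤ p → ∀ [Fact p.Prime],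
      ∀ (D : ℕ) (K : Finset ℤ), Admissible κ b p D K →
      ∀ M : Matrix (Fin 2) (Fin 2) (ZMod p), M.det = 1 → M.trace ^ 2 ≠ 4 →
      ∀ x : ℕ → Fin 2 → ZMod p, (∀ k, x (k + 1) = M *ᵥ x k) → x 0 0 * x 1 1 ≠ x 0 1 * x 1 0 →
      ∀ A N : Fin 2 → ℕ, Boxes ε p A N →
        (p : ℝ) ^ (10 + ε) ≤ (∏ j, (N j : ℝ)) ^ 4 * (orderOf M : ℝ) ^ 3 →
        ∃ G : Finset ℕ, (∏ j, (N j : ℝ)) * orderOf M * (p : ℝ) ^ (-2 - ε) ≤ G.card ∧
          ∀ k ∈ G, k < orderOf M ∧ ∀ j, Hit D K ((p : ℝ) ^ ε) A N j (x k j).val) ∧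
    (∀ ε : ℝ, 0 < ε → ε ≤ 1 → ∃ κ : ℝ, 0 < κ ∧ ∃ p₀ : ℕ, ∀ p : ℕ, p₀ ≤ p → ∀ [Fact p.Prime],
      ∀ (D : ℕ) (K : Finset ℤ), Admissible κ b p D K →
      ∀ (H : Subgroup (ZMod p)ˣ) (a c : (ZMod p)ˣ) (A N : Fin 2 → ℕ), Boxes ε p A N →
        (p : ℝ) ^ (10 + ε) ≤ (∏ j, (N j : ℝ)) ^ 4 * (Nat.card H : ℝ) ^ 3 →
        ∃ G : Finset (ZMod p)ˣ, (∏ j, (N j : ℝ)) * Nat.card H * (p : ℝ) ^ (-2 - ε) ≤ G.card ∧
          ∀ u ∈ G, u ∈ H ∧ Hit D K ((p : ℝ) ^ ε) A N 0 ((a * u : (ZMod p)ˣ) : ZMod p).val ∧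
            Hit D K ((p : ℝ) ^ ε) A N 1 ((c * u⁻¹ : (ZMod p)ˣ) : ZMod p).val) ∧
    (∀ ε : ℝ, 0 < ε → ε ≤ 1 → ∃ κ : ℝ, 0 < κ ∧ ∃ p₀ : ℕ, ∀ p : ℕ, p₀ ≤ p → p.Prime →
      ∀ (D : ℕ) (K : Finset ℤ), Admissible κ b p D K →
      ∀ t : ℕ, IsLeast {m : ℕ | 0 < m ∧ p ∣ Nat.fib m ∧ Nat.fib (m + 1) ≡ 1 [MOD p]} t →
      ∀ A N : Fin 2 → ℕ, Boxes ε p A N → (p : ℝ) ^ (10 + ε) ≤ (∏ j, (N j : ℝ)) ^ 4 * (t : ℝ) ^ 3 →
        ∃ G : Finset ℕ, (∏ j, (N j : ℝ)) * t * (p : ℝ) ^ (-2 - ε) ≤ G.card ∧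
          ∀ n ∈ G, n < 2 * t ∧ Hit D K ((p : ℝ) ^ ε) A N 0 (Nat.fib n % p) ∧
            Hit D K ((p : ℝ) ^ ε) A N 1 (Nat.fib (n + 1) % p)) := by
  refine ⟨?_, ?_, ?_, ?_⟩
  · intro r ε h0 h1
    obtain ⟨κ, hκ, cc, hcc, p₀, h⟩ := Pool.Agent.KS6_52.SQ.invC (Qsq b (ε / 2)) (fun M => M ^ (-(ε / 2))) r
      (csSq b (ε / 2) (by positivity) r) ε h0 h1
    obtain ⟨p₁, ht⟩ := tools b κ cc ε hcc h0
    refine ⟨min κ 1, lt_min hκ one_pos, max p₀ p₁, ?_⟩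
    intro p hp hpF D K hDK Γ T hT Ω hΩ A N hAN hW
    obtain ⟨t1, t2⟩ := ht p ((le_max_right _ _).trans hp) hpF.out
    obtain ⟨G, g1, g2⟩ := h p ((le_max_left _ _).trans hp) (D, K) _ (t1 D K hDK) Γ T hT Ω hΩ A N hAN hW
    exact ⟨G, (t2 _ r (by positivity)).trans g1, g2⟩
  · intro ε h0 h1
    obtain ⟨κ, hκ, cc, hcc, p₀, h⟩ := Pool.Agent.KS6_52.SQ.sl2C (Qsq b (ε / 2)) (fun M => M ^ (-(ε / 2)))
      (csSq b (ε / 2) (by positivity) 2) ε h0 h1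
    obtain ⟨p₁, ht⟩ := tools b κ cc ε hcc h0
    refine ⟨min κ 1, lt_min hκ one_pos, max p₀ p₁, ?_⟩
    intro p hp hpF D K hDK M hM htr x hx hx0 A N hAN hW
    obtain ⟨t1, t2⟩ := ht p ((le_max_right _ _).trans hp) hpF.out
    obtain ⟨G, g1, g2⟩ := (h p ((le_max_left _ _).trans hp)).2 (D, K) _ (t1 D K hDK) M hM htr x hx hx0 A N hAN hW
    have t3 := t2 ((∏ j, (N j : ℝ)) * orderOf M) 2 (by positivity)
    push_cast at t3
    exact ⟨G, t3.trans g1, g2⟩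
  · intro ε h0 h1
    obtain ⟨κ, hκ, cc, hcc, p₀, h⟩ := Pool.Agent.KS6_52.SQ.inversesC (Qsq b (ε / 2)) (fun M => M ^ (-(ε / 2)))
      (csSq b (ε / 2) (by positivity) 2) ε h0 h1
    obtain ⟨p₁, ht⟩ := tools b κ cc ε hcc h0
    refine ⟨min κ 1, lt_min hκ one_pos, max p₀ p₁, ?_⟩
    intro p hp hpF D K hDK H a c A N hAN hW
    obtain ⟨t1, t2⟩ := ht p ((le_max_right _ _).trans hp) hpF.out
    obtain ⟨G, g1, g2⟩ := h p ((le_max_left _ _).trans hp) (D, K) _ (t1 D K hDK) H a c A N hAN hW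
    have t3 := t2 ((∏ j, (N j : ℝ)) * Nat.card H) 2 (by positivity)
    push_cast at t3
    refine ⟨G, t3.trans g1, fun u hu => ?_⟩
    obtain ⟨h2, h3, h4, h5, h6⟩ := g2 u hu
    exact ⟨h2, ⟨h3, h5⟩, ⟨h4, h6⟩⟩
  · intro ε h0 h1
    obtain ⟨κ, hκ, cc, hcc, p₀, h⟩ := Pool.Agent.KS6_52.SQ.fibonacciC (Qsq b (ε / 2)) (fun M => M ^ (-(ε / 2)))
      (csSq b (ε / 2) (by positivity) 2) ε h0 h1
    obtain ⟨p₁, ht⟩ := tools b κ cc ε hcc h0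
    refine ⟨min κ 1, lt_min hκ one_pos, max p₀ p₁, ?_⟩
    intro p hp hpp D K hDK t hlt A N hAN hW
    obtain ⟨t1, t2⟩ := ht p ((le_max_right _ _).trans hp) hpp
    obtain ⟨G, g1, g2⟩ := h p ((le_max_left _ _).trans hp) hpp (D, K) _ (t1 D K hDK) t hlt A N hAN hW
    have t3 := t2 ((∏ j, (N j : ℝ)) * t) 2 (by positivity)
    push_cast at t3
    refine ⟨G, t3.trans g1, fun n hn => ?_⟩
    obtain ⟨h2, h3, h4, h5, h6⟩ := g2 n hn
    exact ⟨h2, ⟨h3, h5⟩, ⟨h4, h6⟩⟩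

end Pool.Agent.Results.MP_36c81c_nt.SquaresAtInverses
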